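import Pool.Agent.H92.BF.Targets

/-!
# (CAS) The case where the operator vanishes
-/

set_option autoImplicit false

namespace Pool.Agent.H33.BF

open MvPolynomial SC Pool.Agent.H27.LV Pool.Agent.H92.BF

/-- the data used for the bound -/
def Dat {k : Type} [Field k] (U V : Polynomial k) (N : ℕ) (A1 B1 A2 B2 : Polynomial k) : Prop :=
  1 ≤ N ∧ A1 ≠ 0 ∧ B1 ≠ 0 ∧ IdS U V N A1 B1 ∧ B2 ≠ 0 ∧ IdB U V A2 B2

theorem inCurve_mono {k K : Type} [Field k] [Field K] [Algebra k K] {N M : ℕ} {x : Fin 2 → K}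
    (h : InCurve k N x) (hNM : N ≤ M) : InCurve k M x := by
  obtain ⟨P, h1, h2, h3⟩ := h
  exact ⟨P, h1, h2.trans hNM, h3⟩

/-- the degenerate cases: `x 0 = 0`, `F(x)` constant, `x 1 / x 0` constant; otherwise there is
a derivation with the necessary properties -/
theorem cas_core (hRZ : T_RZ) (hMPA : T_MPA) (hMPB : T_MPB) {k : Type} [Field k] [IsAlgClosed k]
    [CharZero k] {m d : ℕ} {F α γ : MvPolynomial (Fin 2) k} (hm : 1 ≤ m) (hd : 2 ≤ d)
    (hF : F.IsHomogeneous m) (hF0 : F ≠ 0) (hα : α.IsHomogeneous d) (hγ : γ.IsHomogeneous (d - 2))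
    (hα0 : α ≠ 0) (hV : Td d F α ≠ 0) {K : Type} [Field K] [Algebra k K] [Algebra.EssFiniteType k K]
    (htr : Algebra.trdeg k K = 1) {D : Derivation k K K} (hD : D ≠ 0) {x : Fin 2 → K}
    (hR : RR m d α γ (dlog D (aeval x F - 1)) x = 0) :
    InCurve k (m + 1) x ∨ ∃ (del : Derivation k K K) (s : K),
      x 0 ≠ 0 ∧ aeval x F ≠ 0 ∧ del (x 1 / x 0) = 1 ∧
      (∀ z : K, del z = 0 → z ∈ Set.range (algebraMap k K)) ∧ s ≠ 0 ∧
      del s * Polynomial.aeval (x 1 / x 0) (Td d F α) =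
        -(Polynomial.aeval (x 1 / x 0) (Tn m d F α γ) * s) ∧ del (aeval x F)⁻¹ = s ∧
      ∃ (N : ℕ) (A1 B1 A2 B2 : Polynomial k), Dat (Tn m d F α γ) (Td d F α) N A1 B1 A2 B2 := by
  have hker := ker k K htr D hD
  have h2 : (2 : Fin 2 → ℕ) = 2 := rfl
  by_cases h0 : x 0 = 0
  · left
    refine ⟨X 0, X_ne_zero 0, ?_, ?_⟩
    · rw [totalDegree_X]
      omega
    · rw [aeval_X, h0]
  by_cases h1 : D (aeval x F) = 0
  · left
    obtain ⟨c, hc⟩ := hker _ h1
    refine ⟨F - C c, ?_, ?_, ?_⟩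
    · intro h
      have h3 : F = C c := sub_eq_zero.1 h
      have h4 : F.IsHomogeneous 0 := by
        rw [h3]
        exact isHomogeneous_C _ _
      have := hF.inj_right h4 hF0
      omega
    · refine (totalDegree_sub _ _).trans ?_
      rw [totalDegree_C]
      exact max_le (hF.totalDegree_le.trans (by omega)) (by omega)
    · rw [map_sub, aeval_C, hc, sub_self]
  obtain ⟨r, hr⟩ : ∃ r, r = x 1 / x 0 := ⟨_, rfl⟩
  by_cases h3 : D r = 0
  · left
    obtain ⟨c, hc⟩ := hker _ h3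
    refine ⟨X 1 - C c * X 0, ?_, ?_, ?_⟩
    · intro h
      have h4 := congrArg (eval (![0, 1] : Fin 2 → k)) h
      simp at h4
    · refine (totalDegree_sub _ _).trans ?_
      rw [totalDegree_X]
      refine max_le (by omega) ((totalDegree_mul _ _).trans ?_)
      rw [totalDegree_C, totalDegree_X]
      omega
    · rw [map_sub, map_mul, aeval_C, aeval_X, aeval_X, hc, hr, div_mul_cancel₀ _ h0, sub_self]
  right
  obtain ⟨f, hf⟩ : ∃ f, f = aeval x F := ⟨_, rfl⟩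
  rw [← hf] at h1 hR ⊢
  rw [← hr]
  obtain ⟨δ, hδ⟩ : ∃ δ, δ = dlog D (f - 1) := ⟨_, rfl⟩
  rw [← hδ] at hR
  have hDu : D (f - 1) = D f := by rw [map_sub, D.map_one_eq_zero, sub_zero]
  have hu0 : f - 1 ≠ 0 := by
    intro h
    rw [h, map_zero] at hDu
    exact h1 hDu.symm
  have happ : ∀ z, δ z = (f - 1) / D f * D z := by
    intro z
    rw [hδ, ← hDu]
    rfl
  have hq : (f - 1) / D f ≠ 0 := div_ne_zero hu0 h1
  have hδf : δ f = f - 1 := by rw [happ, div_mul_cancel₀ _ h1]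
  have hf0 : f ≠ 0 := by
    rintro rfl
    exact h1 (map_zero D)
  have hf1 : f ≠ 1 := fun h => hu0 (by rw [h, sub_self])
  have hδr : δ r ≠ 0 := by
    rw [happ]
    exact mul_ne_zero hq h3
  obtain ⟨s, hs⟩ : ∃ s, s = δ f⁻¹ / δ r := ⟨_, rfl⟩
  have e1 : δ s * Polynomial.aeval r (Td d F α) =
      -(Polynomial.aeval r (Tn m d F α γ) * s * δ r) := by
    have := hRZ k K δ m d F α γ x hm hd hF hα hγ hα0 h0 (by rwa [← hf]) (by rwa [← hf])
      (by rwa [← hf]) (by rwa [← hr]) hR s (by rw [hs, ← hf, ← hr])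
    rwa [← hr] at this
  have hs0 : s ≠ 0 := by
    rw [hs]
    refine div_ne_zero ?_ hδr
    rw [Derivation.leibniz_inv, hδf]
    exact mul_ne_zero (neg_ne_zero.2 (pow_ne_zero _ (inv_ne_zero hf0))) hu0
  obtain ⟨del, hdel⟩ : ∃ del : Derivation k K K, del = (δ r)⁻¹ • δ := ⟨_, rfl⟩
  have hdapp : ∀ z, del z = (δ r)⁻¹ * δ z := by
    intro z
    rw [hdel]
    rfl
  have hdr : del r = 1 := by rw [hdapp, inv_mul_cancel₀ hδr]
  have hdf : del f⁻¹ = s := by rw [hdapp, hs, div_eq_inv_mul]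
  have e2 : del s * Polynomial.aeval r (Td d F α) =
      -(Polynomial.aeval r (Tn m d F α γ) * s) := by
    rw [hdapp, mul_assoc, e1]
    field_simp
  have hrt : Transcendental k r := by
    intro halg
    apply h3
    have h4 : (minpoly k r).degree = 1 := IsAlgClosed.degree_eq_one_of_irreducible k
      (minpoly.irreducible halg.isIntegral)
    obtain ⟨c, hc⟩ := minpoly.mem_range_of_degree_eq_one k r h4
    rw [← hc, D.map_algebraMap]
  have hfd := Pool.Agent.H36.SC.fin_of_transc htr hrt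
  have halg : Algebra.IsAlgebraic (IntermediateField.adjoin k {r}) K :=
    Algebra.IsAlgebraic.of_finite _ _
  obtain ⟨N, A1, B1, hN, hA1, hB1, hI1⟩ := hMPA k K del r s (Tn m d F α γ) (Td d F α) hdr halg hV
    hs0 e2
  have e3 : del (f⁻¹ / s) * Polynomial.aeval r (Td d F α) =
      Polynomial.aeval r (Tn m d F α γ) * (f⁻¹ / s) + Polynomial.aeval r (Td d F α) := by
    have e4 : del (f⁻¹ / s) = 1 - f⁻¹ * del s / s ^ 2 := by
      rw [div_eq_mul_inv, Derivation.leibniz, Derivation.leibniz_inv, hdf, smul_eq_mul,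
        smul_eq_mul, smul_eq_mul]
      field_simp
      ring
    rw [e4, sub_mul, div_mul_eq_mul_div, mul_assoc, e2]
    field_simp
    ring
  obtain ⟨A2, B2, hB2, hI2⟩ := hMPB k K del r (f⁻¹ / s) (Tn m d F α γ) (Td d F α) hdr halg hV e3
  refine ⟨del, s, h0, hf0, hdr, ?_, hs0, e2, hdf, N, A1, B1, A2, B2, hN, hA1, hB1, hI1, hB2, hI2⟩
  intro z hz
  apply hker
  rw [hdapp] at hz
  have h5 := (mul_eq_zero.1 hz).resolve_left (inv_ne_zero hδr)
  rw [happ] at h5
  exact (mul_eq_zero.1 h5).resolve_left hq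

/-- target CAS of the board -/
theorem pf_CAS (hRZ : T_RZ) (hMPA : T_MPA) (hMPB : T_MPB) (hCON : T_CON) (hPOL : T_POL)
    (hDHO : T_DHO) : T_CAS := by
  intro k _ _ _ m d F α γ hm hd hF hF0 hα hγ hα0
  have hV : Td d F α ≠ 0 := by
    unfold Td
    have h1 := (hDHO k k 1 m F hF (by simp)).2 hF0
    have h2 := (hDHO k k 1 d α hα (by simp)).2 hα0
    refine mul_ne_zero (mul_ne_zero ?_ h1) h2
    rw [Ne, Polynomial.C_eq_zero]
    exact_mod_cast (by omega : d ≠ 0)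
  by_cases hE : ∃ (N : ℕ) (A1 B1 A2 B2 : Polynomial k),
      Dat (Tn m d F α γ) (Td d F α) N A1 B1 A2 B2
  · obtain ⟨N, A1, B1, A2, B2, hN, hA1, hB1, hI1, hB2, hI2⟩ := hE
    refine ⟨max (m + 1) (max (B1 * B2 ^ N).natDegree (A2 ^ N * A1).natDegree + m * N), ?_⟩
    intro K _ _ _ htr D hD x hR
    rcases cas_core hRZ hMPA hMPB hm hd hF hF0 hα hγ hα0 hV htr hD hR with h |
      ⟨del, s, h0, hf0, hdr, hker, hs0, e2, hdf, -⟩
    · exact inCurve_mono h (le_max_left _ _)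
    · obtain ⟨c, β, hcb⟩ := hCON k K del (x 1 / x 0) s (aeval x F)⁻¹ (Tn m d F α γ) (Td d F α)
        A1 B1 A2 B2 N hdr hker hV hN hA1 hB1 hB2 hI1 hI2 hs0 e2 hdf
      exact inCurve_mono (hPOL k K m N _ F (B1 * B2 ^ N) (A2 ^ N * A1) x c β hF hm hN
        (mul_ne_zero hB1 (pow_ne_zero _ hB2)) (le_max_left _ _) (le_max_right _ _) h0 hf0 hcb)
        (le_max_right _ _)
  · refine ⟨m + 1, ?_⟩
    intro K _ _ _ htr D hD x hR
    rcases cas_core hRZ hMPA hMPB hm hd hF hF0 hα hγ hα0 hV htr hD hR with h |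
      ⟨del, s, -, -, -, -, -, -, -, h⟩
    · exact h
    · exact absurd h hE

end Pool.Agent.H33.BF
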