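import Pool.Agent.H92.BF.Targets

/-!
# (DHO) Values of binary forms in terms of `r = x 1 / x 0`
-/

set_option autoImplicit false

namespace Pool.Agent.H33.BF

open MvPolynomial SC Pool.Agent.H27.LV Pool.Agent.H92.BF

theorem dho1 {k K : Type} [Field k] [Field K] [Algebra k K] (x : Fin 2 → K) (p : ℕ)
    (P : MvPolynomial (Fin 2) k) (hP : P.IsHomogeneous p) (hx : x 0 ≠ 0) :
    aeval x P = x 0 ^ p * Polynomial.aeval (x 1 / x 0) (dh P) := by
  have h1 : Polynomial.aeval (x 1 / x 0) (dh P) = aeval (fun i => x i / x 0) P := by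
    unfold dh
    rw [MvPolynomial.comp_aeval_apply]
    congr 2
    funext i
    fin_cases i
    · simp [div_self hx]
    · simp
  rw [h1, MvPolynomial.aeval_def, MvPolynomial.eval₂_eq', MvPolynomial.aeval_def,
    MvPolynomial.eval₂_eq', Finset.mul_sum]
  refine Finset.sum_congr rfl fun d hd => ?_
  have h2 := hP.degree_eq_sum_deg_support hd
  have h3 : d 0 + d 1 = p := by
    rw [Finset.sum_subset (Finset.subset_univ d.support)
      (fun i _ hi => Finsupp.notMem_support_iff.1 hi), Fin.sum_univ_two] at h2
    exact h2.symm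
  rw [Fin.prod_univ_two, Fin.prod_univ_two, ← h3, div_pow, div_pow, pow_add]
  field_simp

/-- target DHO of the board -/
theorem pf_DHO : T_DHO := by
  intro k K _ _ _ x p P hP hx
  refine ⟨dho1 x p P hP hx, ?_⟩
  intro hP0 hd
  apply hP0
  have h1 := dho1 (K := FractionRing (MvPolynomial (Fin 2) k))
    (fun i => algebraMap (MvPolynomial (Fin 2) k) _ (X i)) p P hP (by
      rw [Ne, map_eq_zero_iff _ (IsFractionRing.injective (MvPolynomial (Fin 2) k)
        (FractionRing (MvPolynomial (Fin 2) k)))]
      exact X_ne_zero 0)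
  rw [hd, map_zero, mul_zero] at h1
  have h2 : aeval (fun i => algebraMap (MvPolynomial (Fin 2) k)
      (FractionRing (MvPolynomial (Fin 2) k)) (X i)) P =
      algebraMap (MvPolynomial (Fin 2) k) (FractionRing (MvPolynomial (Fin 2) k)) P := by
    have := MvPolynomial.aeval_algebraMap_apply (R := k) (A := MvPolynomial (Fin 2) k)
      (B := FractionRing (MvPolynomial (Fin 2) k)) (fun i => X i) P
    rw [MvPolynomial.aeval_X_left_apply] at this
    exact this
  rw [h2, map_eq_zero_iff _ (IsFractionRing.injective (MvPolynomial (Fin 2) k)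
        (FractionRing (MvPolynomial (Fin 2) k)))] at h1
  exact h1

end Pool.Agent.H33.BF
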