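import Pool.Agent.H92.BF.Targets

/-!
# (ORD) Orders for the derivation `u d/du`
-/

set_option autoImplicit false

namespace Pool.Agent.H33.BF

open MvPolynomial SC Pool.Agent.H27.LV Pool.Agent.H92.BF

/-- target ORD of the board -/
theorem pf_ORD : T_ORD := by
  intro k K _ _ _ _ _ _ htr D hD u hu S hS
  classical
  have hu0 : u ≠ 0 := by
    rintro rfl
    exact hu (map_zero D)
  have happ : ∀ z, dlog D u z = u / D u * D z := fun z => rfl
  refine ⟨?_, ?_⟩
  · rw [happ, div_mul_cancel₀ _ hu]
  have hdor := dor k K htr D hD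
  obtain ⟨nz, hnz⟩ : ∃ nz : DV k K → ℤ, nz = fun v =>
      v.ord (D u) - v.ord u - ordD v D + if v ∈ S then 1 else 0 := ⟨_, rfl⟩
  have hnz' : ∀ v, nz v = v.ord (D u) - v.ord u - ordD v D + if v ∈ S then 1 else 0 := by
    intro v
    rw [hnz]
  have hpos : ∀ v, 0 ≤ nz v := by
    intro v
    obtain ⟨-, ⟨h1, h2⟩, -⟩ := hdor v
    rw [hnz']
    by_cases hv : v ∈ S
    · rw [if_pos hv]
      have h3 := (h2 u hu0).resolve_left hu
      omega
    · rw [if_neg hv]
      have h3 := (h1 u (by rw [hS v hv])).resolve_left hu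
      have h4 := hS v hv
      omega
  have hn : ∀ v, (((nz v).toNat : ℕ) : ℤ) = nz v := fun v => Int.toNat_of_nonneg (hpos v)
  have hq : ∀ v : DV k K, ge v (v.ord u - v.ord (D u)) (u / D u) := by
    intro v
    rw [← v.ord_div hu0 hu]
    exact ge_of_ord v
  have f1 := (pfm k K htr (D u)).1
  have f2 := (pfm k K htr u).1
  have f3 : {v : DV k K | ordD v D ≠ 0}.Finite := tDFI k K htr D hD
  have f4 : (Function.support fun v : DV k K => (if v ∈ S then (1 : ℤ) else 0)).Finite := by
    refine S.finite_toSet.subset fun v hv => ?_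
    by_contra hcon
    exact hv (if_neg hcon)
  have hsum : ∑ᶠ v, nz v = canDeg D + S.card := by
    have e : ∀ v, nz v = (v.ord (D u) - v.ord u - ordD v D) + if v ∈ S then 1 else 0 := hnz'
    have g1 : (Function.support fun v : DV k K => v.ord (D u)).Finite := f1
    have g2 : (Function.support fun v : DV k K => v.ord u).Finite := f2
    have g3 : (Function.support fun v : DV k K => ordD v D).Finite := f3
    have g4 : (Function.support fun v : DV k K => v.ord (D u) - v.ord u).Finite :=
      (g1.union g2).subset (Function.support_sub _ _)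
    have g5 : (Function.support fun v : DV k K => v.ord (D u) - v.ord u - ordD v D).Finite :=
      (g4.union g3).subset (Function.support_sub _ _)
    rw [finsum_congr e, finsum_add_distrib g5 f4, finsum_sub_distrib g4 g3,
      finsum_sub_distrib g1 g2, (pfm k K htr (D u)).2, (pfm k K htr u).2]
    unfold canDeg
    have h5 : ∑ᶠ v : DV k K, (if v ∈ S then (1 : ℤ) else 0) = S.card := by
      rw [finsum_eq_sum_of_support_subset (s := S)]
      · rw [Finset.sum_ite_mem, Finset.inter_self, Finset.sum_const, nsmul_eq_mul, mul_one]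
      · intro v hv
        by_contra hcon
        exact hv (if_neg hcon)
    rw [h5]
    ring
  refine ⟨fun v => (nz v).toNat, ?_, ?_, ?_, ?_⟩
  · refine (((f1.union f2).union f3).union S.finite_toSet).subset fun v hv => ?_
    by_contra hcon
    simp only [Set.mem_union, Set.mem_ofPred_eq, Finset.mem_coe, not_or, not_not] at hcon
    apply hv
    show (nz v).toNat = 0
    rw [hnz', hcon.1.1.1, hcon.1.1.2, hcon.1.2, if_neg hcon.2]
    rfl
  · rw [← hsum]
    exact finsum_congr hn
  · intro v hv
    obtain ⟨-, ⟨h1, h2⟩, h3⟩ := hdor v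
    have h4 := hS v hv
    have h5 : nz v = v.ord (D u) - ordD v D := by
      rw [hnz', if_neg hv, h4]
      ring
    refine ⟨fun z hz => ?_, fun z hz => ?_, fun hne => ?_⟩
    · rw [happ]
      refine ((hq v).mul (h1 z hz)).mono ?_
      rw [hn]
      omega
    · rw [happ]
      refine ((hq v).mul (h2 z hz)).mono ?_
      rw [hn]
      omega
    · obtain ⟨-, h6⟩ := h3 (u + 1) hne
      rw [map_add, D.map_one_eq_zero, add_zero] at h6
      rw [hn]
      omega
  · intro v hv
    obtain ⟨-, ⟨h1, h2⟩, h3⟩ := hdor v
    have h5 : nz v = v.ord (D u) - v.ord u - ordD v D + 1 := by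
      rw [hnz', if_pos hv]
    refine ⟨fun z hz => ?_, fun hne => ?_⟩
    · rw [happ]
      refine ((hq v).mul (h2 z hz)).mono ?_
      rw [hn]
      omega
    · obtain ⟨-, h6⟩ := h3 (u + 1) (by omega)
      rw [map_add, D.map_one_eq_zero, add_zero] at h6
      have h7 : v.ord u = 0 := by
        have h8 : u = -1 + (u + 1) := by ring
        have h9 := (v.ord_add_eq_left (x := -1) (y := u + 1) (by simp) (fun _ => by
          rw [v.ord_neg, v.ord_one]; omega)).2
        rw [← h8, v.ord_neg, v.ord_one] at h9
        exact h9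
      rw [hn]
      omega

end Pool.Agent.H33.BF
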