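import Pool.Agent.H72.BF.Targets4

namespace Pool.Agent.H33.BF.AAI

open Pool.Agent.H72.BF Finset

theorem aai : T_AAI := by
  intro hAA hC n d δ hδ
  obtain ⟨k, ε, hε, hmain⟩ := hAA n d δ hδ
  obtain ⟨x0, hx0⟩ := hC k ε hε
  refine ⟨x0, ?_⟩
  intro x hx lam0 hlam0 halg
  classical
  let f : ℕ → ℂ := fun m => (Real.log m : ℂ)
  have hinj : ∀ a b : ℕ, 1 ≤ a → 1 ≤ b → f a = f b → a = b := by
    intro a b ha hb h
    have h1 : Real.log (a : ℝ) = Real.log (b : ℝ) := by
      have : ((Real.log (a : ℝ) : ℝ) : ℂ) = ((Real.log (b : ℝ) : ℝ) : ℂ) := h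
      exact_mod_cast this
    have h2 := Real.log_injOn_pos (Set.mem_Ioi.2 (by exact_mod_cast ha))
      (Set.mem_Ioi.2 (by exact_mod_cast hb)) h1
    exact_mod_cast h2
  have hXalg : ∀ z ∈ (Finset.Icc 1 x).image f, IsAlgebraic ℚ (Complex.exp z) := by
    intro z hz
    rw [Finset.mem_image] at hz
    obtain ⟨m, hm, rfl⟩ := hz
    rw [Finset.mem_Icc] at hm
    have hpos : (0 : ℝ) < m := by exact_mod_cast hm.1
    have : Complex.exp (f m) = (m : ℂ) := by
      show Complex.exp ((Real.log (m : ℝ) : ℝ) : ℂ) = (m : ℂ)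
      rw [← Complex.ofReal_exp, Real.exp_log hpos]
      simp
    rw [this]
    exact isAlgebraic_nat m
  have hcard : ((Finset.Icc 1 x).image f).card = x := by
    rw [Finset.card_image_of_injOn]
    · simp
    · intro a ha b hb h
      simp only [Finset.coe_Icc, Set.mem_Icc] at ha hb
      exact hinj a b ha.1 hb.1 h
  obtain ⟨C, hC0, hCb⟩ := hmain ((Finset.Icc 1 x).image f) hXalg (hx0 x hx) lam0 hlam0 halg
  refine ⟨C, hC0, ?_⟩
  intro H hH
  have hb := hCb H hH
  rw [hcard] at hb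
  refine le_trans ?_ hb
  have hfin : Set.Finite {a : Fin n → ℂ | (∀ i, a i ∈ (Finset.Icc 1 x).image f) ∧
      badZ lam0 n d C H a} := by
    refine Set.Finite.subset (Set.Finite.pi' (fun _ : Fin n =>
      ((Finset.Icc 1 x).image f).finite_toSet)) ?_
    intro a ha i
    exact ha.1 i
  have hle : Set.ncard {a : Fin n → ℕ | (∀ i, 1 ≤ a i ∧ a i ≤ x) ∧
      badZ lam0 n d C H (fun i => (Real.log (a i) : ℂ))} ≤
      Set.ncard {a : Fin n → ℂ | (∀ i, a i ∈ (Finset.Icc 1 x).image f) ∧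
        badZ lam0 n d C H a} := by
    refine Set.ncard_le_ncard_of_injOn (fun a i => f (a i)) ?_ ?_ hfin
    · intro a ha
      refine ⟨fun i => ?_, ha.2⟩
      rw [Finset.mem_image]
      exact ⟨a i, Finset.mem_Icc.2 (ha.1 i), rfl⟩
    · intro a ha b hb hab
      funext i
      exact hinj _ _ (ha.1 i).1 (hb.1 i).1 (congrFun hab i)
  exact_mod_cast hle

end Pool.Agent.H33.BF.AAI
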