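import Mathlib

/-! Ultraproducts of fields along the hyperfilter, as quotients of product rings. -/

namespace Pool.Agent.H33.UProd

open Filter MvPolynomial

/-- the ideal of sequences which vanish almost everywhere -/
def UI (A : ℕ → Type) [∀ j, Field (A j)] : Ideal (∀ j, A j) where
  carrier := {x | ∀ᶠ j in (hyperfilter ℕ : Filter ℕ), x j = 0}
  add_mem' := by
    intro a b ha hb
    filter_upwards [ha, hb] with j h1 h2
    simp [h1, h2]
  zero_mem' := by
    exact Filter.Eventually.of_forall (fun j => rfl)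
  smul_mem' := by
    intro c x hx
    filter_upwards [hx] with j h1
    simp [h1]

theorem mem_UI {A : ℕ → Type} [∀ j, Field (A j)] (x : ∀ j, A j) :
    x ∈ UI A ↔ ∀ᶠ j in (hyperfilter ℕ : Filter ℕ), x j = 0 := Iff.rfl

instance UI_max (A : ℕ → Type) [∀ j, Field (A j)] : (UI A).IsMaximal := by
  rw [Ideal.isMaximal_iff]
  constructor
  · intro h
    rw [mem_UI] at h
    have : ∀ᶠ j in (hyperfilter ℕ : Filter ℕ), False := by
      filter_upwards [h] with j hj
      exact one_ne_zero hj
    obtain ⟨j, hj⟩ := this.exists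
    exact hj
  · intro J x hJ hx hxJ
    rw [mem_UI] at hx
    have h1 : ∀ᶠ j in (hyperfilter ℕ : Filter ℕ), x j ≠ 0 := by
      exact (Ultrafilter.eventually_not (f := hyperfilter ℕ)).2 hx
    have h2 : (1 : ∀ j, A j) = (1 - (fun j => (x j)⁻¹) * x) + (fun j => (x j)⁻¹) * x := by ring
    rw [h2]
    refine J.add_mem (hJ ?_) (J.mul_mem_left _ hxJ)
    rw [mem_UI]
    filter_upwards [h1] with j hj
    simp [hj]

/-- the ultraproduct -/
abbrev UP (A : ℕ → Type) [∀ j, Field (A j)] : Type := (∀ j, A j) ⧸ UI A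

noncomputable instance UPfield (A : ℕ → Type) [∀ j, Field (A j)] : Field (UP A) :=
  Ideal.Quotient.field (UI A)

/-- the class of a sequence -/
def cls {A : ℕ → Type} [∀ j, Field (A j)] : (∀ j, A j) →+* UP A := Ideal.Quotient.mk (UI A)

theorem cls_surj {A : ℕ → Type} [∀ j, Field (A j)] (z : UP A) : ∃ x : ∀ j, A j, cls x = z :=
  Ideal.Quotient.mk_surjective z

theorem cls_eq_zero {A : ℕ → Type} [∀ j, Field (A j)] (x : ∀ j, A j) :
    cls x = 0 ↔ ∀ᶠ j in (hyperfilter ℕ : Filter ℕ), x j = 0 := by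
  rw [cls, Ideal.Quotient.eq_zero_iff_mem, mem_UI]

instance UPcz (A : ℕ → Type) [∀ j, Field (A j)] [∀ j, CharZero (A j)] : CharZero (UP A) := by
  refine charZero_of_inj_zero ?_
  intro n hn
  have h1 : ((n : ∀ j, A j)) = (n : ∀ j, A j) := rfl
  have h2 : cls (n : ∀ j, A j) = 0 := by
    rw [map_natCast]
    exact hn
  rw [cls_eq_zero] at h2
  obtain ⟨j, hj⟩ := h2.exists
  have : ((n : ℕ) : A j) = 0 := by simpa using hj
  exact_mod_cast this

/-- the componentwise algebra map -/
noncomputable instance UPalg (A B : ℕ → Type) [∀ j, Field (A j)] [∀ j, Field (B j)]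
    [∀ j, Algebra (A j) (B j)] : Algebra (UP A) (UP B) :=
  RingHom.toAlgebra (Ideal.Quotient.lift (UI A)
    ((cls (A := B)).comp (RingHom.pi
      (fun j => (algebraMap (A j) (B j)).comp (Pi.evalRingHom A j)))) (by
    intro x hx
    rw [mem_UI] at hx
    rw [RingHom.comp_apply, cls_eq_zero]
    filter_upwards [hx] with j hj
    show algebraMap (A j) (B j) (x j) = 0
    rw [hj, map_zero]))

theorem algebraMap_cls {A B : ℕ → Type} [∀ j, Field (A j)] [∀ j, Field (B j)]
    [∀ j, Algebra (A j) (B j)] (x : ∀ j, A j) :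
    algebraMap (UP A) (UP B) (cls x) = cls (fun j => algebraMap (A j) (B j) (x j)) := by
  rfl

theorem cls_sum {A : ℕ → Type} [∀ j, Field (A j)] {ι : Type} (s : Finset ι)
    (f : ι → ∀ j, A j) : cls (fun j => ∑ i ∈ s, f i j) = ∑ i ∈ s, cls (f i) := by
  rw [← map_sum]
  congr 1
  funext j
  simp

theorem cls_prod {A : ℕ → Type} [∀ j, Field (A j)] {ι : Type} (s : Finset ι)
    (f : ι → ∀ j, A j) : cls (fun j => ∏ i ∈ s, f i j) = ∏ i ∈ s, cls (f i) := by
  rw [← map_prod]
  congr 1
  funext j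
  simp

variable {A B : ℕ → Type} [∀ j, Field (A j)] [∀ j, Field (B j)] [∀ j, Algebra (A j) (B j)]
  {σ : Type} [Fintype σ]

/-- evaluation of an explicit sum of monomials -/
theorem aeval_cls (M : Finset (σ →₀ ℕ)) (c : (σ →₀ ℕ) → ∀ j, A j) (s : σ → ∀ j, B j) :
    aeval (fun i => cls (s i)) (∑ m ∈ M, monomial m (cls (c m)) : MvPolynomial σ (UP A)) =
      cls (fun j => aeval (fun i => s i j) (∑ m ∈ M, monomial m (c m j) :
        MvPolynomial σ (A j))) := by
  classical
  have h1 : (fun j => aeval (fun i => s i j) (∑ m ∈ M, monomial m (c m j) :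
        MvPolynomial σ (A j))) =
      (fun j => ∑ m ∈ M, (algebraMap (A j) (B j) (c m j) * ∏ i, (s i j) ^ m i)) := by
    funext j
    rw [map_sum]
    refine Finset.sum_congr rfl (fun m _ => ?_)
    rw [aeval_monomial, Finsupp.prod_fintype _ _ (fun i => pow_zero _)]
  rw [h1, cls_sum, map_sum]
  refine Finset.sum_congr rfl (fun m _ => ?_)
  rw [aeval_monomial, Finsupp.prod_fintype _ _ (fun i => pow_zero _), algebraMap_cls]
  have h2 : (fun j => algebraMap (A j) (B j) (c m j) * ∏ i, s i j ^ m i) =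
    (fun j => algebraMap (A j) (B j) (c m j)) * (fun j => ∏ i, (fun j => s i j ^ m i) j) := by
    funext j
    simp
  rw [h2, map_mul, cls_prod]
  congr 1

/-- coefficients of an explicit sum of monomials -/
theorem coeff_sum_mono {R : Type} [CommSemiring R] (M : Finset (σ →₀ ℕ)) (c : (σ →₀ ℕ) → R)
    (m : σ →₀ ℕ) [Decidable (m ∈ M)] :
    coeff m (∑ k ∈ M, monomial k (c k)) = if m ∈ M then c m else 0 := by
  classical
  rw [coeff_sum]
  simp only [coeff_monomial]
  rw [Finset.sum_ite_eq' M m c]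
  split_ifs <;> rfl

/-- exponents with all entries at most `d` -/
noncomputable def box (σ : Type) [Fintype σ] (d : ℕ) : Finset (σ →₀ ℕ) := by
  classical
  exact (Fintype.piFinset (fun _ : σ => Finset.range (d + 1))).image Finsupp.equivFunOnFinite.symm

theorem mem_box (d : ℕ) (m : σ →₀ ℕ) : m ∈ box σ d ↔ ∀ i, m i ≤ d := by
  classical
  unfold box
  rw [Finset.mem_image]
  constructor
  · rintro ⟨f, hf, rfl⟩ i
    rw [Fintype.mem_piFinset] at hf
    have := Finset.mem_range.1 (hf i)
    simpa using Nat.lt_succ_iff.1 this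
  · intro h
    refine ⟨m, ?_, ?_⟩
    · rw [Fintype.mem_piFinset]
      intro i
      exact Finset.mem_range.2 (Nat.lt_succ_of_le (h i))
    · ext i
      simp

theorem mem_box_of_support {R : Type} [CommSemiring R] {d : ℕ} {Q : MvPolynomial σ R}
    (hQ : Q.totalDegree ≤ d) {m : σ →₀ ℕ} (hm : m ∈ Q.support) : m ∈ box σ d := by
  rw [mem_box]
  intro i
  have h1 := le_totalDegree hm
  have h2 : m i ≤ m.sum (fun _ e => e) := by
    rw [Finsupp.sum_fintype _ _ (fun _ => rfl)]
    exact Finset.single_le_sum (f := fun i => m i) (fun _ _ => Nat.zero_le _) (Finset.mem_univ i)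
  omega

theorem eq_sum_box {R : Type} [CommSemiring R] {d : ℕ} {Q : MvPolynomial σ R}
    (hQ : Q.totalDegree ≤ d) : ∑ m ∈ box σ d, monomial m (coeff m Q) = Q := by
  classical
  ext m
  rw [coeff_sum_mono]
  split_ifs with h
  · rfl
  · by_contra hne
    exact h (mem_box_of_support hQ (mem_support_iff.2 (Ne.symm hne)))

/-- the class of a sequence of polynomials of degree at most `d` -/
theorem exists_class (d : ℕ) (Q : ∀ j, MvPolynomial σ (A j)) (hQ : ∀ j, (Q j).totalDegree ≤ d)
    (hQ0 : ∀ j, Q j ≠ 0) (s : σ → ∀ j, B j)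
    (hev : ∀ j, aeval (fun i => s i j) (Q j) = (0 : B j)) :
    ∃ P : MvPolynomial σ (UP A), P ≠ 0 ∧ P.totalDegree ≤ d ∧
      aeval (fun i => cls (s i)) P = (0 : UP B) := by
  classical
  refine ⟨∑ m ∈ box σ d, monomial m (cls (fun j => coeff m (Q j))), ?_, ?_, ?_⟩
  · have h1 : ∀ᶠ j in (hyperfilter ℕ : Filter ℕ), ∃ m ∈ (box σ d : Set (σ →₀ ℕ)),
        coeff m (Q j) ≠ 0 := by
      refine Filter.Eventually.of_forall (fun j => ?_)
      obtain ⟨m, hm⟩ := ne_zero_iff.1 (hQ0 j)
      exact ⟨m, mem_box_of_support (hQ j) (mem_support_iff.2 hm), hm⟩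
    rw [Ultrafilter.eventually_exists_mem_iff (box σ d).finite_toSet] at h1
    obtain ⟨m, hm, hm2⟩ := h1
    intro h0
    have h2 := congrArg (coeff m) h0
    rw [coeff_sum_mono, if_pos (by simpa using hm), coeff_zero, cls_eq_zero] at h2
    obtain ⟨j, hj1, hj2⟩ := (h2.and hm2).exists
    exact hj2 hj1
  · rw [totalDegree]
    refine Finset.sup_le (fun m hm => ?_)
    rw [mem_support_iff, coeff_sum_mono] at hm
    by_cases hmb : m ∈ box σ d
    · rw [if_pos hmb, Ne, cls_eq_zero] at hm
      have : ∃ j, coeff m (Q j) ≠ 0 := by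
        by_contra hcon
        push Not at hcon
        exact hm (Filter.Eventually.of_forall hcon)
      obtain ⟨j, hj⟩ := this
      exact (le_totalDegree (mem_support_iff.2 hj)).trans (hQ j)
    · rw [if_neg hmb] at hm
      exact absurd rfl hm
  · rw [aeval_cls, cls_eq_zero]
    refine Filter.Eventually.of_forall (fun j => ?_)
    show aeval (fun i => s i j) (∑ m ∈ box σ d, monomial m (coeff m (Q j))) = 0
    rw [eq_sum_box (hQ j)]
    exact hev j

end Pool.Agent.H33.UProd
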