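import Pool.Agent.H72.BF.Targets4
import Pool.Agent.H33.BF.UP

namespace Pool.Agent.H33.BF.GCLC

open Pool.Agent.H72.BF Pool.Agent.H33.UProd Filter MvPolynomial

/-- a counterexample to the statement with parameters `κ`, `D` -/
structure Ctr (r d κ D : ℕ) where
  K : Type
  F : Type
  fK : Field K
  cK : CharZero K
  fF : Field F
  al : Algebra K F
  t : Fin r → F
  ht : ∀ P : MvPolynomial (Fin r) K, P.totalDegree ≤ D → MvPolynomial.aeval t P = 0 → P = 0
  y0 : F
  w : Fin (κ + 1) → F
  hw : LinearIndependent K w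
  hrel : ∀ I : Finset (Fin (κ + 1)), RelN K t d (y0 + ∑ i ∈ I, w i)

theorem gclc (h : T_GCL) : T_GCLC := by
  classical
  intro r d
  obtain ⟨κ, hκ⟩ := h r d
  by_contra hcon
  push Not at hcon
  have hctr : ∀ D : ℕ, Nonempty (Ctr r d κ D) := by
    intro D
    obtain ⟨K, F, fK, cK, fF, al, t, ht, y0, k, w, hw, hrel, hk⟩ := hcon κ D
    have hkk : κ + 1 ≤ k := hk
    refine ⟨⟨K, F, fK, cK, fF, al, t, ht, y0, fun i => w (Fin.castLE hkk i), ?_, ?_⟩⟩
    · exact hw.comp _ (Fin.castLE_injective hkk)
    · intro I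
      have := hrel (I.map (Fin.castLEEmb hkk))
      rw [Finset.sum_map] at this
      exact this
  obtain ⟨c⟩ : Nonempty (∀ j, Ctr r d κ j) := ⟨fun j => (hctr j).some⟩
  let K : ℕ → Type := fun j => (c j).K
  let F : ℕ → Type := fun j => (c j).F
  letI iK : ∀ j, Field (K j) := fun j => (c j).fK
  letI iF : ∀ j, Field (F j) := fun j => (c j).fF
  haveI iC : ∀ j, CharZero (K j) := fun j => (c j).cK
  letI iA : ∀ j, Algebra (K j) (F j) := fun j => (c j).al
  let t : Fin r → ∀ j, F j := fun i j => (c j).t i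
  let y0 : ∀ j, F j := fun j => (c j).y0
  let w : Fin (κ + 1) → ∀ j, F j := fun i j => (c j).w i
  have hat : (hyperfilter ℕ : Filter ℕ) ≤ atTop := Nat.hyperfilter_le_atTop
  have key := hκ (UP K) (UP F) (fun i => cls (t i)) ?_ (cls y0) (κ + 1) (fun i => cls (w i)) ?_ ?_
  · omega
  · -- algebraic independence
    rw [algebraicIndependent_iff]
    intro Q hQ
    choose lift hlift using (cls_surj (A := K))
    let cf : (Fin r →₀ ℕ) → ∀ j, K j := fun m => lift (coeff m Q)
    have hQs : Q = ∑ m ∈ Q.support, monomial m (cls (cf m)) := by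
      conv_lhs => rw [Q.as_sum]
      refine Finset.sum_congr rfl (fun m _ => ?_)
      rw [hlift]
    rw [hQs, aeval_cls, cls_eq_zero] at hQ
    have h1 : ∀ᶠ j in (hyperfilter ℕ : Filter ℕ), Q.totalDegree ≤ j :=
      hat (eventually_ge_atTop _)
    have h2 : ∀ᶠ j in (hyperfilter ℕ : Filter ℕ),
        (∑ m ∈ Q.support, monomial m (cf m j) : MvPolynomial (Fin r) (K j)) = 0 := by
      filter_upwards [hQ, h1] with j hj1 hj2
      refine (c j).ht _ ?_ hj1
      refine (totalDegree_finset_sum _ _).trans ?_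
      refine Finset.sup_le (fun m hm => ?_)
      refine (totalDegree_monomial_le _ _).trans ?_
      exact (le_totalDegree hm).trans hj2
    rw [hQs]
    refine Finset.sum_eq_zero (fun m hm => ?_)
    have h3 : cls (cf m) = 0 := by
      rw [cls_eq_zero]
      filter_upwards [h2] with j hj
      have := congrArg (coeff m) hj
      rw [coeff_sum_mono, if_pos hm, coeff_zero] at this
      exact this
    rw [h3, map_zero]
  · rw [Fintype.linearIndependent_iff]
    intro g hg i
    choose lift hlift using (cls_surj (A := K))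
    have hg2 : ∑ i, g i • cls (w i) =
        cls (fun j => ∑ i, lift (g i) j • w i j) := by
      rw [cls_sum]
      refine Finset.sum_congr rfl (fun i _ => ?_)
      rw [Algebra.smul_def]
      conv_lhs => rw [← hlift (g i)]
      rw [algebraMap_cls, ← map_mul]
      congr 1
      funext j
      simp only [Pi.mul_apply, Algebra.smul_def]
    rw [hg2, cls_eq_zero] at hg
    rw [← hlift (g i), cls_eq_zero]
    filter_upwards [hg] with j hj
    exact (Fintype.linearIndependent_iff.1 (c j).hw) _ hj i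
  · intro I
    have hr : ∀ j, ∃ Q : MvPolynomial (Fin (r + 1)) (K j), Q ≠ 0 ∧ Q.totalDegree ≤ d ∧
        MvPolynomial.aeval (Fin.snoc (c j).t ((c j).y0 + ∑ i ∈ I, (c j).w i) :
          Fin (r + 1) → F j) Q = 0 := fun j => (c j).hrel I
    choose Q hQ0 hQd hQe using hr
    let s : Fin (r + 1) → ∀ j, F j := fun i j =>
      (Fin.snoc (c j).t ((c j).y0 + ∑ i ∈ I, (c j).w i) : Fin (r + 1) → F j) i
    obtain ⟨P, hP0, hPd, hPe⟩ := exists_class d Q hQd hQ0 s (fun j => hQe j)
    refine ⟨P, hP0, hPd, ?_⟩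
    have hs : (Fin.snoc (fun i => cls (t i)) (cls y0 + ∑ i ∈ I, cls (w i)) :
        Fin (r + 1) → UP F) = fun i => cls (s i) := by
      funext i
      refine Fin.lastCases ?_ (fun i => ?_) i
      · rw [Fin.snoc_last, ← cls_sum, ← map_add]
        congr 1
        funext j
        show _ = (Fin.snoc (c j).t ((c j).y0 + ∑ i ∈ I, (c j).w i) :
          Fin (r + 1) → F j) (Fin.last r)
        rw [Fin.snoc_last]
        rfl
      · rw [Fin.snoc_castSucc]
        congr 1
        funext j
        show _ = (Fin.snoc (c j).t ((c j).y0 + ∑ i ∈ I, (c j).w i) :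
          Fin (r + 1) → F j) (Fin.castSucc i)
        rw [Fin.snoc_castSucc]
    rw [hs]
    exact hPe

end Pool.Agent.H33.BF.GCLC
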