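import Pool.Agent.H72.BF.Targets4

namespace Pool.Agent.H33.BF.GSC

open Pool.Agent.H72.BF Finset

theorem gsc : T_GSC := by
  intro D h0 G _ _ dist hrefl hsymm htri hinv hD hX
  classical
  haveI : Fintype G := Fintype.ofFinite G
  -- separated sets
  let Sep : ℕ → Finset G → Prop := fun h X => ∀ x ∈ X, ∀ y ∈ X, x ≠ y → h < dist x y
  let fam : ℕ → Finset (Finset G) := fun h => univ.filter (fun X => Sep h X)
  let q : ℕ → ℕ := fun j => (fam (4 ^ j * h0)).sup card
  have hle : ∀ j, ∀ X : Finset G, Sep (4 ^ j * h0) X → X.card ≤ q j := by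
    intro j X hX
    exact Finset.le_sup (f := card) (by simp [fam, hX])
  have hex : ∀ j, ∃ X : Finset G, Sep (4 ^ j * h0) X ∧ X.card = q j := by
    intro j
    have hne : (fam (4 ^ j * h0)).Nonempty := by
      refine ⟨∅, ?_⟩
      simp [fam, Sep]
    obtain ⟨X, hX1, hX2⟩ := Finset.exists_mem_eq_sup (fam (4 ^ j * h0)) hne card
    exact ⟨X, by simpa [fam] using hX1, hX2.symm⟩
  have hq0 : q 0 ≤ D := by
    obtain ⟨X, hX1, hX2⟩ := hex 0
    rw [← hX2]
    exact hX X (by simpa [Sep] using hX1)
  have hmono : ∀ j, q (j + 1) ≤ q j := by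
    intro j
    obtain ⟨X, hX1, hX2⟩ := hex (j + 1)
    rw [← hX2]
    refine hle j X ?_
    intro x hx y hy hxy
    refine lt_of_le_of_lt ?_ (hX1 x hx y hy hxy)
    exact Nat.mul_le_mul_right _ (Nat.pow_le_pow_right (by norm_num) (Nat.le_succ j))
  have hq1 : ∀ j, 1 ≤ q j := by
    intro j
    have := hle j {1} (by intro x hx y hy hxy; simp at hx hy; exact absurd (hx.trans hy.symm) hxy)
    simpa using this
  have hj : ∃ j, j < D ∧ q (j + 1) = q j := by
    by_contra hcon
    push Not at hcon
    have hlt : ∀ j, j < D → q (j + 1) < q j := fun j hj =>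
      lt_of_le_of_ne (hmono j) (hcon j hj)
    have hsum : ∀ j, j ≤ D → q j + j ≤ q 0 := by
      intro j
      induction j with
      | zero => intro _; simp
      | succ k ih =>
        intro hk
        have h1 := ih (by omega)
        have h2 := hlt k (by omega)
        omega
    have := hsum D le_rfl
    have := hq1 D
    omega
  obtain ⟨j, hjD, hjq⟩ := hj
  obtain ⟨X0, hX01, hX02⟩ := hex (j + 1)
  have hX0ne : X0.Nonempty := by
    rw [← Finset.card_pos, hX02]
    exact hq1 _
  obtain ⟨x0, hx0⟩ := hX0ne
  -- translate
  let X : Finset G := X0.image (fun y => x0⁻¹ * y)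
  have hXcard : X.card = q (j + 1) := by
    rw [← hX02]
    exact Finset.card_image_of_injective _ (fun a b h => mul_left_cancel h)
  have hXsep : Sep (4 ^ (j + 1) * h0) X := by
    intro x hx y hy hxy
    simp only [X, Finset.mem_image] at hx hy
    obtain ⟨a, ha, rfl⟩ := hx
    obtain ⟨b, hb, rfl⟩ := hy
    rw [hinv]
    exact hX01 a ha b hb (fun h => hxy (by rw [h]))
  have h1X : (1 : G) ∈ X := by
    simp only [X, Finset.mem_image]
    exact ⟨x0, hx0, by simp⟩
  have hpow : 4 ^ (j + 1) * h0 = 4 * (4 ^ j * h0) := by ring
  have hcov : ∀ σ : G, ∃ x ∈ X, dist x σ ≤ 4 ^ j * h0 := by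
    intro σ
    by_contra hcon
    push Not at hcon
    have hσ : σ ∉ X := by
      intro hσ
      have := hcon σ hσ
      rw [hrefl] at this
      omega
    have hsep : Sep (4 ^ j * h0) (insert σ X) := by
      intro x hx y hy hxy
      rw [Finset.mem_insert] at hx hy
      rcases hx with rfl | hx
      · rcases hy with rfl | hy
        · exact absurd rfl hxy
        · rw [hsymm]
          exact hcon y hy
      · rcases hy with rfl | hy
        · exact hcon x hx
        · have := hXsep x hx y hy hxy
          omega
    have := hle j _ hsep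
    rw [Finset.card_insert_of_notMem hσ, hXcard, hjq] at this
    omega
  have hdist1 : ∀ s t : G, dist s (s * t) = dist 1 t := by
    intro s t
    have := hinv s 1 t
    rwa [mul_one] at this
  let G0 : Subgroup G :=
    { carrier := {σ | dist 1 σ ≤ 4 ^ j * h0}
      mul_mem' := by
        intro s t hs ht
        simp only [Set.mem_setOf_eq] at hs ht ⊢
        have h2 : dist 1 (s * t) ≤ 2 * (4 ^ j * h0) := by
          have := htri 1 s (s * t)
          rw [hdist1] at this
          omega
        obtain ⟨x, hx, hxs⟩ := hcov (s * t)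
        have h3 : dist 1 x ≤ 4 ^ (j + 1) * h0 := by
          have := htri 1 (s * t) x
          rw [hsymm (s * t) x] at this
          omega
        have hx1 : x = 1 := by
          by_contra hne
          have := hXsep 1 h1X x hx (fun h => hne h.symm)
          omega
        rw [hx1] at hxs
        exact hxs
      one_mem' := by
        simp only [Set.mem_setOf_eq]
        rw [hrefl]
        exact Nat.zero_le _
      inv_mem' := by
        intro s hs
        simp only [Set.mem_setOf_eq] at hs ⊢
        have := hinv s 1 s⁻¹
        rw [mul_one, mul_inv_cancel] at this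
        rw [← this, hsymm]
        exact hs }
  refine ⟨G0, ?_, ?_⟩
  · have hsurj : Function.Surjective (fun x : X => (QuotientGroup.mk (x : G) : G ⧸ G0)) := by
      intro c
      induction c using QuotientGroup.induction_on with
      | H σ =>
        obtain ⟨x, hx, hxs⟩ := hcov σ
        refine ⟨⟨x, hx⟩, ?_⟩
        show (QuotientGroup.mk x : G ⧸ G0) = QuotientGroup.mk σ
        rw [QuotientGroup.eq]
        show dist 1 (x⁻¹ * σ) ≤ 4 ^ j * h0
        have := hinv x 1 (x⁻¹ * σ)
        rw [mul_one, mul_inv_cancel_left] at this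
        rw [← this]
        exact hxs
    have hc : Nat.card (G ⧸ G0) ≤ Nat.card X := Nat.card_le_card_of_surjective _ hsurj
    have hc2 : Nat.card X = X.card := by simp
    have : G0.index = Nat.card (G ⧸ G0) := rfl
    rw [this]
    calc Nat.card (G ⧸ G0) ≤ X.card := by rw [← hc2]; exact hc
      _ = q (j + 1) := hXcard
      _ ≤ q 0 := by
          rw [hjq]
          have : ∀ i, q i ≤ q 0 := by
            intro i
            induction i with
            | zero => exact le_rfl
            | succ k ih => exact (hmono k).trans ih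
          exact this j
      _ ≤ D := hq0
  · intro σ hσ
    have h1 : dist 1 σ ≤ 4 ^ j * h0 := hσ
    refine h1.trans (Nat.mul_le_mul_right _ (Nat.pow_le_pow_right (by norm_num) hjD.le))

end Pool.Agent.H33.BF.GSC
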